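import Pool.Agent.H10.RIC.Stmts

/-!
# RIC, row ENG: collisions of numbers of small radical
-/

set_option autoImplicit false

namespace Pool.RIC

open Finset Pool.Agent.H98.ABCR Pool.SHA

namespace ENG34

/-- the part with exponents greater than `J` -/
def hi (J n : ℕ) : ℕ :=
  ∏ p ∈ n.primeFactors.filter (fun p => J < n.factorization p), p ^ n.factorization p

/-- the product of the primes with exponent `e` -/
def ly (e n : ℕ) : ℕ := ∏ p ∈ n.primeFactors.filter (fun p => n.factorization p = e), p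

theorem ly_pos (e n : ℕ) : 0 < ly e n :=
  Finset.prod_pos fun _ hp => (Nat.prime_of_mem_primeFactors (Finset.mem_filter.1 hp).1).pos

theorem rad_pos (n : ℕ) : 0 < rad n :=
  Finset.prod_pos fun _ hp => (Nat.prime_of_mem_primeFactors hp).pos

theorem ly_dvd_rad (e n : ℕ) : ly e n ∣ rad n :=
  Finset.prod_dvd_prod_of_subset _ _ _ (Finset.filter_subset _ _)

theorem rad_dvd (n : ℕ) : rad n ∣ n := Nat.prod_primeFactors_dvd n

theorem squarefree_rad (n : ℕ) : Squarefree (rad n) := by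
  unfold rad
  refine Finset.squarefree_prod_of_pairwise_isCoprime ?_ ?_
  · intro p hp q hq hpq
    change IsRelPrime p q
    rw [← Nat.coprime_iff_isRelPrime]
    exact (Nat.coprime_primes (Nat.prime_of_mem_primeFactors hp)
      (Nat.prime_of_mem_primeFactors hq)).2 hpq
  · intro p hp
    exact (Nat.prime_of_mem_primeFactors hp).squarefree

theorem ly_squarefree (e n : ℕ) : Squarefree (ly e n) :=
  (squarefree_rad n).squarefree_of_dvd (ly_dvd_rad e n)

theorem ly_coprime {n q : ℕ} (h : n.Coprime q) (e : ℕ) : (ly e n).Coprime q :=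
  Nat.Coprime.coprime_dvd_left ((ly_dvd_rad e n).trans (rad_dvd n)) h

theorem layers (J n : ℕ) (g : ℕ → ℕ) :
    ∏ j : Fin J, ∏ p ∈ n.primeFactors.filter (fun p => n.factorization p = (j : ℕ) + 1), g p =
    ∏ p ∈ n.primeFactors.filter (fun p => ¬ J < n.factorization p), g p := by
  have h1 := Fin.prod_univ_eq_prod_range
    (fun j => ∏ p ∈ n.primeFactors.filter (fun p => n.factorization p = j + 1), g p) J
  rw [h1]
  rw [← Finset.prod_fiberwise_of_maps_to (s := n.primeFactors.filter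
    (fun p => ¬ J < n.factorization p)) (t := Finset.range J)
    (g := fun p => n.factorization p - 1)]
  · refine Finset.prod_congr rfl ?_
    intro j hj
    refine Finset.prod_congr ?_ (fun _ _ => rfl)
    ext p
    rw [Finset.mem_range] at hj
    simp only [Finset.mem_filter]
    constructor
    · rintro ⟨h2, h3⟩
      exact ⟨⟨h2, by omega⟩, by omega⟩
    · rintro ⟨⟨h2, h3⟩, h4⟩
      have h5 : n.factorization p ≠ 0 := by
        rw [← Finsupp.mem_support_iff, Nat.support_factorization]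
        exact h2
      exact ⟨h2, by omega⟩
  · intro p hp
    rw [Finset.mem_filter] at hp
    rw [Finset.mem_range]
    have h5 : n.factorization p ≠ 0 := by
      rw [← Finsupp.mem_support_iff, Nat.support_factorization]
      exact hp.1
    omega

theorem decomp (J : ℕ) {n : ℕ} (hn : 0 < n) :
    hi J n * ∏ j : Fin J, ly ((j : ℕ) + 1) n ^ ((j : ℕ) + 1) = n := by
  have h1 : ∏ p ∈ n.primeFactors, p ^ n.factorization p = n := by
    have := Nat.prod_factorization_pow_eq_self hn.ne'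
    rw [Finsupp.prod] at this
    exact this
  have h2 : ∏ j : Fin J, ly ((j : ℕ) + 1) n ^ ((j : ℕ) + 1) =
      ∏ p ∈ n.primeFactors.filter (fun p => ¬ J < n.factorization p), p ^ n.factorization p := by
    rw [← layers J n (fun p => p ^ n.factorization p)]
    refine Finset.prod_congr rfl ?_
    intro j _
    unfold ly
    rw [← Finset.prod_pow]
    refine Finset.prod_congr rfl ?_
    intro p hp
    rw [(Finset.mem_filter.1 hp).2]
  rw [h2]
  unfold hi
  rw [Finset.prod_filter_mul_prod_filter_not, h1]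

theorem prod_ly_le (J n : ℕ) : ∏ j : Fin J, ly ((j : ℕ) + 1) n ≤ rad n := by
  have h1 := layers J n (fun p => p)
  change ∏ j : Fin J, ly ((j : ℕ) + 1) n = _ at h1
  rw [h1]
  unfold rad
  refine Finset.prod_le_prod_of_subset_of_one_le' (Finset.filter_subset _ _) ?_
  intro p hp _
  exact (Nat.prime_of_mem_primeFactors hp).one_le

theorem hi_dvd {n : ℕ} (hn : 0 < n) (J : ℕ) : hi J n ∣ n := by
  have h := decomp J hn
  exact ⟨_, h.symm⟩

theorem hi_pos (J n : ℕ) : 0 < hi J n :=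
  Finset.prod_pos fun _ hp =>
    pow_pos (Nat.prime_of_mem_primeFactors (Finset.mem_filter.1 hp).1).pos _

theorem rad_hi {n : ℕ} (hn : 0 < n) (J : ℕ) : rad (hi J n) ^ (J + 1) ≤ n := by
  have hsub : (hi J n).primeFactors ⊆ n.primeFactors.filter (fun p => J < n.factorization p) := by
    intro p hp
    have hpp := Nat.prime_of_mem_primeFactors hp
    have hpd := Nat.dvd_of_mem_primeFactors hp
    unfold hi at hpd
    obtain ⟨r, hr, hpr⟩ := (hpp.prime.dvd_finsetProd_iff _).1 hpd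
    have h1 : p ∣ r := hpp.dvd_of_dvd_pow hpr
    have h2 : p = r :=
      (Nat.prime_dvd_prime_iff_eq hpp (Nat.prime_of_mem_primeFactors (Finset.mem_filter.1 hr).1)).1 h1
    rw [h2]
    exact hr
  refine le_trans ?_ (Nat.le_of_dvd hn (hi_dvd hn J))
  unfold rad
  calc (∏ p ∈ (hi J n).primeFactors, p) ^ (J + 1)
      ≤ (∏ p ∈ n.primeFactors.filter (fun p => J < n.factorization p), p) ^ (J + 1) := by
        refine Nat.pow_le_pow_left ?_ _
        refine Finset.prod_le_prod_of_subset_of_one_le' hsub ?_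
        intro p hp _
        exact (Nat.prime_of_mem_primeFactors (Finset.mem_filter.1 hp).1).one_le
    _ ≤ hi J n := by
        unfold hi
        rw [← Finset.prod_pow]
        refine Finset.prod_le_prod' ?_
        intro p hp
        rw [Finset.mem_filter] at hp
        exact Nat.pow_le_pow_right (Nat.prime_of_mem_primeFactors hp.1).pos hp.2

/-- collisions and classes -/
theorem split {β κ' : Type} [DecidableEq β] [DecidableEq κ'] (S : Finset ℕ) (x : ℕ → β)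
    (key : ℕ → κ') (M : ℕ) (hM : ∀ k ∈ S.image key,
      (((S.filter (fun n => key n = k)) ×ˢ (S.filter (fun n => key n = k))).filter
        (fun w => x w.1 = x w.2)).card ≤ M) :
    ((S ×ˢ S).filter (fun w => x w.1 = x w.2)).card ≤ (S.image key).card ^ 2 * M := by
  have hcount : ∀ T : Finset ℕ, T ⊆ S → ((T ×ˢ T).filter (fun w => x w.1 = x w.2)).card =
      ∑ b ∈ S.image x, (T.filter (fun n => x n = b)).card ^ 2 := by
    intro T hT
    rw [Finset.card_eq_sum_card_fiberwise (f := fun w : ℕ × ℕ => x w.1) (t := S.image x)]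
    · refine Finset.sum_congr rfl ?_
      intro b _
      rw [pow_two, ← Finset.card_product]
      congr 1
      ext w
      simp only [Finset.mem_filter, Finset.mem_product]
      constructor
      · rintro ⟨⟨⟨h1, h2⟩, h3⟩, h4⟩
        exact ⟨⟨h1, h4⟩, h2, h3 ▸ h4⟩
      · rintro ⟨⟨h1, h2⟩, h3, h4⟩
        exact ⟨⟨⟨h1, h3⟩, h2.trans h4.symm⟩, h2⟩
    · intro w hw
      have hw' := Finset.mem_coe.1 hw
      rw [Finset.mem_filter, Finset.mem_product] at hw'
      exact Finset.mem_coe.2 (Finset.mem_image_of_mem x (hT hw'.1.1))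
  rw [hcount S (Finset.Subset.refl _)]
  have h1 : ∀ b, (S.filter (fun n => x n = b)).card =
      ∑ k ∈ S.image key, ((S.filter (fun n => key n = k)).filter (fun n => x n = b)).card := by
    intro b
    rw [Finset.card_eq_sum_card_fiberwise (f := key) (t := S.image key)]
    · refine Finset.sum_congr rfl ?_
      intro k _
      congr 1
      ext n
      simp only [Finset.mem_filter]
      tauto
    · intro n hn
      have hn' := Finset.mem_coe.1 hn
      rw [Finset.mem_filter] at hn'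
      exact Finset.mem_coe.2 (Finset.mem_image_of_mem key hn'.1)
  calc ∑ b ∈ S.image x, (S.filter (fun n => x n = b)).card ^ 2
      ≤ ∑ b ∈ S.image x, (S.image key).card *
        ∑ k ∈ S.image key, ((S.filter (fun n => key n = k)).filter (fun n => x n = b)).card ^ 2 := by
        refine Finset.sum_le_sum ?_
        intro b _
        rw [h1 b]
        exact sq_sum_le_card_mul_sum_sq
    _ = (S.image key).card * ∑ k ∈ S.image key, (((S.filter (fun n => key n = k)) ×ˢ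
        (S.filter (fun n => key n = k))).filter (fun w => x w.1 = x w.2)).card := by
        rw [← Finset.mul_sum, Finset.sum_comm]
        congr 1
        refine Finset.sum_congr rfl ?_
        intro k _
        rw [hcount _ (Finset.filter_subset _ _)]
    _ ≤ (S.image key).card * ∑ k ∈ S.image key, M := by
        refine Nat.mul_le_mul_left _ (Finset.sum_le_sum hM)
    _ = (S.image key).card ^ 2 * M := by
        rw [Finset.sum_const, smul_eq_mul]
        ring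

/-- the class of a number in the group -/
noncomputable def fU (q : ℕ) (u : ℕ) : (ZMod q)ˣ :=
  if h : u.Coprime q then ZMod.unitOfCoprime u h else 1

theorem fU_val {q u : ℕ} (h : u.Coprime q) : ((fU q u : (ZMod q)ˣ) : ZMod q) = (u : ZMod q) := by
  unfold fU
  rw [dif_pos h]
  rfl

open Classical in
theorem one_key (hEN : Pool.FEW.S_EN) {J q : ℕ} [NeZero q] {z B Y : ℝ} {T : Finset ℕ} {t0 : ℕ}
    {k v : Fin J → ℕ} (hz : 1 < z) (hB : 1 ≤ B) (hY : 0 ≤ Y)
    (hT : ∀ n ∈ T, 0 < n ∧ n.Coprime q ∧ hi J n = t0 ∧ (rad n : ℝ) ≤ Y ∧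
      (∀ j : Fin J, Nat.log 2 (ly ((j : ℕ) + 1) n) = k j) ∧
      ∀ j : Fin J, (2 : ℝ) ^ (k j) < z → ly ((j : ℕ) + 1) n = v j)
    (hmom : ∀ (j : Fin J) (U : Finset ℕ) (t : ℕ), 1 ≤ t → z ≤ (2 : ℝ) ^ (k j) →
      ((2 : ℝ) ^ (k j)) ^ (t - 1) < Y →
      (∀ u ∈ U, Squarefree u ∧ u.Coprime q ∧ 2 ^ (k j) ≤ u ∧ u < 2 * 2 ^ (k j)) →
      ((((Fintype.piFinset fun _ : Fin t => U) ×ˢ (Fintype.piFinset fun _ : Fin t => U)).filter
        (fun w => (∏ i, w.1 i) ^ ((j : ℕ) + 1) ≡ (∏ i, w.2 i) ^ ((j : ℕ) + 1) [MOD q])).card : ℝ) ≤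
        B * ((2 : ℝ) ^ (k j)) ^ t) :
    (((T ×ˢ T).filter (fun w => w.1 ≡ w.2 [MOD q])).card : ℝ) ≤ 2 * B * Y := by
  rcases T.eq_empty_or_nonempty with h0 | ⟨n0, hn0⟩
  · subst h0
    simp only [Finset.product_empty, Finset.filter_empty, Finset.card_empty, Nat.cast_zero]
    positivity
  obtain ⟨U, hU⟩ : ∃ U : Fin J → Finset ℕ, U = fun j => if (2 : ℝ) ^ (k j) < z then {v j} else
    (Finset.Ico (2 ^ (k j)) (2 * 2 ^ (k j))).filter (fun u => Squarefree u ∧ u.Coprime q) :=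
    ⟨_, rfl⟩
  obtain ⟨Js, hJs⟩ : ∃ Js : Finset (Fin J), Js = Finset.univ.filter (fun j => z ≤ (2 : ℝ) ^ (k j)) :=
    ⟨_, rfl⟩
  have hprod : ∏ j ∈ Js, (2 : ℝ) ^ (k j) ≤ Y := by
    obtain ⟨h1, h2, h3, h4, h5, h6⟩ := hT n0 hn0
    have h7 : ∏ j ∈ Js, 2 ^ (k j) ≤ rad n0 := by
      calc ∏ j ∈ Js, 2 ^ (k j) ≤ ∏ j : Fin J, 2 ^ (k j) := by
            refine Finset.prod_le_prod_of_subset_of_one_le' (Finset.subset_univ _) ?_
            intro j _ _
            exact Nat.one_le_pow _ _ (by norm_num)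
        _ ≤ ∏ j : Fin J, ly ((j : ℕ) + 1) n0 := by
            refine Finset.prod_le_prod' ?_
            intro j _
            rw [← h5 j]
            exact Nat.pow_log_le_self 2 (ly_pos _ _).ne'
        _ ≤ rad n0 := prod_ly_le J n0
    have h8 : ((∏ j ∈ Js, 2 ^ (k j) : ℕ) : ℝ) ≤ (rad n0 : ℝ) := by exact_mod_cast h7
    push_cast at h8
    exact h8.trans h4
  have hcopU : ∀ j, ∀ n ∈ T, ly ((j : ℕ) + 1) n ∈ U j := by
    intro j n hn
    obtain ⟨h1, h2, h3, h4, h5, h6⟩ := hT n hn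
    rw [hU]
    by_cases hj : (2 : ℝ) ^ (k j) < z
    · simp only [hj, if_true]
      rw [Finset.mem_singleton]
      exact h6 j hj
    · simp only [hj, if_false]
      rw [Finset.mem_filter, Finset.mem_Ico]
      refine ⟨⟨?_, ?_⟩, ly_squarefree _ _, ly_coprime h2 _⟩
      · rw [← h5 j]
        exact Nat.pow_log_le_self 2 (ly_pos _ _).ne'
      · rw [← h5 j, ← pow_succ']
        exact Nat.lt_pow_succ_log_self (by norm_num) _
  have hen := hEN (Fin J) (ZMod q)ˣ U (fun j u => fU q u ^ ((j : ℕ) + 1)) Js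
    (fun j => (2 : ℝ) ^ (k j)) B hB ?_ ?_ ?_
  · refine le_trans ?_ (hen.trans ?_)
    · refine Nat.cast_le.2 (Finset.card_le_card_of_injOn
        (fun w => ((fun j : Fin J => ly ((j : ℕ) + 1) w.1), (fun j : Fin J => ly ((j : ℕ) + 1) w.2)))
        ?_ ?_)
      · intro w hw
        have hw' := Finset.mem_coe.1 hw
        rw [Finset.mem_filter, Finset.mem_product] at hw'
        obtain ⟨⟨hw1, hw2⟩, hw3⟩ := hw'
        refine Finset.mem_coe.2 (Finset.mem_filter.2 ⟨Finset.mem_product.2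
          ⟨Fintype.mem_piFinset.2 fun j => hcopU j w.1 hw1,
          Fintype.mem_piFinset.2 fun j => hcopU j w.2 hw2⟩, ?_⟩)
        obtain ⟨a1, a2, a3, a4, a5, a6⟩ := hT w.1 hw1
        obtain ⟨b1, b2, b3, b4, b5, b6⟩ := hT w.2 hw2
        have e1 := decomp J a1
        have e2 := decomp J b1
        rw [a3] at e1
        rw [b3] at e2
        rw [← e1, ← e2] at hw3
        have ht0 : Nat.gcd q t0 = 1 := by
          have : t0.Coprime q := by
            rw [← a3]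
            exact Nat.Coprime.coprime_dvd_left (hi_dvd a1 J) a2
          exact this.symm
        have hw4 := Nat.ModEq.cancel_left_of_coprime ht0 hw3
        rw [← ZMod.natCast_eq_natCast_iff] at hw4
        push_cast at hw4
        change ∏ j : Fin J, fU q (ly ((j : ℕ) + 1) w.1) ^ ((j : ℕ) + 1) =
          ∏ j : Fin J, fU q (ly ((j : ℕ) + 1) w.2) ^ ((j : ℕ) + 1)
        refine Units.ext ?_
        rw [Units.coe_prod, Units.coe_prod]
        simp only [Units.val_pow_eq_pow_val, fU_val (ly_coprime a2 _), fU_val (ly_coprime b2 _)]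
        exact hw4
      · intro w hw w' hw' hww
        have h1 := Finset.mem_coe.1 hw
        have h2 := Finset.mem_coe.1 hw'
        rw [Finset.mem_filter, Finset.mem_product] at h1 h2
        have h3 := Prod.ext_iff.1 hww
        have hinj : ∀ a ∈ T, ∀ b ∈ T, (fun j : Fin J => ly ((j : ℕ) + 1) a) =
            (fun j : Fin J => ly ((j : ℕ) + 1) b) → a = b := by
          intro a ha b hb hab
          obtain ⟨a1, a2, a3, -⟩ := hT a ha
          obtain ⟨b1, b2, b3, -⟩ := hT b hb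
          rw [← decomp J a1, ← decomp J b1, a3, b3]
          congr 1
          refine Finset.prod_congr rfl ?_
          intro j _
          rw [show ly ((j : ℕ) + 1) a = ly ((j : ℕ) + 1) b from congrFun hab j]
        exact Prod.ext (hinj _ h1.1.1 _ h2.1.1 h3.1) (hinj _ h1.1.2 _ h2.1.2 h3.2)
    · exact mul_le_mul_of_nonneg_left hprod (by linarith)
  · intro j hj
    rw [hJs, Finset.mem_filter] at hj
    have h1 : (2 : ℝ) ^ (k j) < z := not_le.1 fun h => hj ⟨Finset.mem_univ _, h⟩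
    rw [hU]
    simp only [h1, if_true, Finset.card_singleton, le_refl]
  · intro j hj
    rw [hJs, Finset.mem_filter] at hj
    exact lt_of_lt_of_le hz hj.2
  · intro j hj t ht hlt
    rw [hJs, Finset.mem_filter] at hj
    have hnj : ¬ (2 : ℝ) ^ (k j) < z := not_lt.2 hj.2
    have hUj : ∀ u ∈ U j, Squarefree u ∧ u.Coprime q ∧ 2 ^ (k j) ≤ u ∧ u < 2 * 2 ^ (k j) := by
      intro u hu
      rw [hU] at hu
      simp only [hnj, if_false] at hu
      rw [Finset.mem_filter, Finset.mem_Ico] at hu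
      exact ⟨hu.2.1, hu.2.2, hu.1.1, hu.1.2⟩
    refine le_trans ?_ (hmom j (U j) t ht hj.2 (lt_of_lt_of_le hlt hprod) hUj)
    refine Nat.cast_le.2 (Finset.card_le_card ?_)
    intro w hw
    rw [Finset.mem_filter] at hw ⊢
    refine ⟨hw.1, ?_⟩
    have h1 := congrArg (fun g : (ZMod q)ˣ => (g : ZMod q)) hw.2
    simp only [Units.coe_prod, Units.val_pow_eq_pow_val] at h1
    obtain ⟨m1, m2⟩ := Finset.mem_product.1 hw.1
    have h2 : ∀ w' ∈ Fintype.piFinset (fun _ : Fin t => U j),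
        ∏ i, ((fU q (w' i) : (ZMod q)ˣ) : ZMod q) ^ ((j : ℕ) + 1) =
        (((∏ i, w' i) ^ ((j : ℕ) + 1) : ℕ) : ZMod q) := by
      intro w' hw'
      rw [Finset.prod_pow]
      push_cast
      congr 1
      refine Finset.prod_congr rfl ?_
      intro i _
      exact fU_val (hUj _ (Fintype.mem_piFinset.1 hw' i)).2.1
    rw [h2 _ m1, h2 _ m2] at h1
    rwa [ZMod.natCast_eq_natCast_iff] at h1

theorem rad_hi_le {X κ : ℝ} (hX : 1 ≤ X) {n J : ℕ} (hn : 0 < n) (hJ : 1 ≤ J)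
    (h : (n : ℝ) ≤ X ^ κ) : (rad (hi J n) : ℝ) ≤ X ^ (κ / J) := by
  by_contra hcon
  push Not at hcon
  have hX0 : 0 < X := by linarith
  have h1 : (1 : ℝ) ≤ rad (hi J n) := by exact_mod_cast rad_pos _
  have h2 : ((rad (hi J n) ^ (J + 1) : ℕ) : ℝ) ≤ (n : ℝ) := by exact_mod_cast rad_hi hn J
  push_cast at h2
  have h3 : (rad (hi J n) : ℝ) ^ J ≤ (rad (hi J n) : ℝ) ^ (J + 1) :=
    pow_le_pow_right₀ h1 (Nat.le_succ J)
  have h4 : (X ^ (κ / J)) ^ J < (rad (hi J n) : ℝ) ^ J :=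
    pow_lt_pow_left₀ hcon (by positivity) (by omega)
  have h5 : (X ^ (κ / J)) ^ J = X ^ κ := by
    rw [← Real.rpow_natCast, ← Real.rpow_mul hX0.le]
    congr 1
    have : (J : ℝ) ≠ 0 := by
      have : (0 : ℝ) < J := by exact_mod_cast hJ
      exact this.ne'
    field_simp
  linarith

/-- the key of a number -/
noncomputable def key (J : ℕ) (z : ℝ) (n : ℕ) : ℕ × (Fin J → ℕ) × (Fin J → ℕ) :=
  (hi J n, (fun j => Nat.log 2 (ly ((j : ℕ) + 1) n)),
    fun j => if (2 : ℝ) ^ (Nat.log 2 (ly ((j : ℕ) + 1) n)) < z then ly ((j : ℕ) + 1) n else 0)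

theorem card_keys {C₁ ε₁ κ X Y z : ℝ} {J : ℕ} {P : Finset ℕ} (hX : 1 ≤ X) (hYX : Y ≤ X)
    (hJ : 1 ≤ J) (hz : 1 ≤ z) (hC : ∀ (T : Finset ℕ),
      (∀ n ∈ T, 0 < n ∧ (n : ℝ) ≤ X ^ κ ∧ (rad n : ℝ) ≤ X ^ (κ / J)) →
      (T.card : ℝ) ≤ C₁ * X ^ ε₁ * X ^ (κ / J)) {δ : ℝ} (hδ : 0 < δ)
    (hP : ∀ n ∈ P, 0 < n ∧ (n : ℝ) ≤ X ^ κ ∧ (rad n : ℝ) ≤ Y) :
    ((P.image (key J z)).card : ℝ) ≤
      (C₁ * X ^ ε₁ * X ^ (κ / J)) * ((1 + 2 / δ) * X ^ δ) ^ J * (3 * z) ^ J := by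
  have hX0 : 0 < X := by linarith
  obtain ⟨L, hL⟩ : ∃ L, L = Nat.log 2 ⌊X⌋₊ := ⟨_, rfl⟩
  obtain ⟨W, hW⟩ : ∃ W, W = ⌊2 * z⌋₊ := ⟨_, rfl⟩
  have hfl : 1 ≤ ⌊X⌋₊ := Nat.le_floor (by exact_mod_cast hX)
  have hlyX : ∀ n ∈ P, ∀ e, ly e n ≤ ⌊X⌋₊ := by
    intro n hn e
    have h1 : ly e n ≤ rad n := Nat.le_of_dvd (rad_pos n) (ly_dvd_rad e n)
    refine h1.trans (Nat.le_floor ?_)
    exact (hP n hn).2.2.trans hYX
  have hsub : P.image (key J z) ⊆ (P.image (hi J)) ×ˢ
      ((Fintype.piFinset fun _ : Fin J => Finset.range (L + 1)) ×ˢ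
        (Fintype.piFinset fun _ : Fin J => Finset.range (W + 1))) := by
    intro k hk
    obtain ⟨n, hn, rfl⟩ := Finset.mem_image.1 hk
    refine Finset.mem_product.2 ⟨Finset.mem_image_of_mem _ hn, Finset.mem_product.2 ⟨?_, ?_⟩⟩
    · refine Fintype.mem_piFinset.2 ?_
      intro j
      rw [Finset.mem_range]
      have h1 : Nat.log 2 (ly ((j : ℕ) + 1) n) ≤ L := by
        rw [hL]
        exact Nat.log_mono_right (hlyX n hn _)
      exact Nat.lt_succ_of_le h1
    · refine Fintype.mem_piFinset.2 ?_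
      intro j
      rw [Finset.mem_range]
      refine Nat.lt_succ_of_le ?_
      change (if (2 : ℝ) ^ (Nat.log 2 (ly ((j : ℕ) + 1) n)) < z then ly ((j : ℕ) + 1) n else 0) ≤ W
      split_ifs with h
      · rw [hW]
        refine Nat.le_floor ?_
        have h1 : ly ((j : ℕ) + 1) n < 2 ^ (Nat.log 2 (ly ((j : ℕ) + 1) n) + 1) :=
          Nat.lt_pow_succ_log_self (by norm_num) _
        have h2 : ((ly ((j : ℕ) + 1) n : ℕ) : ℝ) ≤
            (2 : ℝ) ^ (Nat.log 2 (ly ((j : ℕ) + 1) n) + 1) := by exact_mod_cast h1.le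
        rw [pow_succ] at h2
        linarith
      · exact Nat.zero_le _
  have hcard := Finset.card_le_card hsub
  rw [Finset.card_product, Finset.card_product, Fintype.card_piFinset_const,
    Fintype.card_piFinset_const, Finset.card_range, Finset.card_range] at hcard
  have hcard' : ((P.image (key J z)).card : ℝ) ≤
      ((P.image (hi J)).card : ℝ) * (((L + 1 : ℕ) : ℝ) ^ J * ((W + 1 : ℕ) : ℝ) ^ J) := by
    exact_mod_cast hcard
  have h1 : ((P.image (hi J)).card : ℝ) ≤ C₁ * X ^ ε₁ * X ^ (κ / J) := by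
    refine hC _ ?_
    intro t ht
    obtain ⟨n, hn, rfl⟩ := Finset.mem_image.1 ht
    obtain ⟨a1, a2, a3⟩ := hP n hn
    have hle : (hi J n : ℝ) ≤ n := by exact_mod_cast Nat.le_of_dvd a1 (hi_dvd a1 J)
    exact ⟨hi_pos J n, hle.trans a2, rad_hi_le hX a1 hJ a2⟩
  have hXδ : 1 ≤ X ^ δ := Real.one_le_rpow hX hδ.le
  have h2 : ((L + 1 : ℕ) : ℝ) ≤ (1 + 2 / δ) * X ^ δ := by
    have e1 : 2 ^ L ≤ ⌊X⌋₊ := by
      rw [hL]
      exact Nat.pow_log_le_self 2 (by omega)
    have e2 : (2 : ℝ) ^ L ≤ X := by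
      have : ((2 ^ L : ℕ) : ℝ) ≤ (⌊X⌋₊ : ℝ) := by exact_mod_cast e1
      push_cast at this
      exact this.trans (Nat.floor_le hX0.le)
    have e3 : (L : ℝ) * Real.log 2 ≤ Real.log X := by
      rw [← Real.log_pow]
      exact Real.log_le_log (by positivity) e2
    have e4 : (1 : ℝ) / 2 ≤ Real.log 2 := by linarith [Real.log_two_gt_d9]
    have e5 : (L : ℝ) ≤ 2 * Real.log X := by
      have : (0 : ℝ) ≤ L := Nat.cast_nonneg _
      nlinarith
    have e6 : Real.log X ≤ X ^ δ / δ := Real.log_le_rpow_div hX0.le hδ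
    push_cast
    calc (L : ℝ) + 1 ≤ 2 * (X ^ δ / δ) + X ^ δ := by linarith
      _ = (1 + 2 / δ) * X ^ δ := by ring
  have h3 : ((W + 1 : ℕ) : ℝ) ≤ 3 * z := by
    have : (W : ℝ) ≤ 2 * z := by
      rw [hW]
      exact Nat.floor_le (by linarith)
    push_cast
    linarith
  calc ((P.image (key J z)).card : ℝ)
      ≤ ((P.image (hi J)).card : ℝ) * (((L + 1 : ℕ) : ℝ) ^ J * ((W + 1 : ℕ) : ℝ) ^ J) := hcard'
    _ ≤ (C₁ * X ^ ε₁ * X ^ (κ / J)) * (((1 + 2 / δ) * X ^ δ) ^ J * (3 * z) ^ J) := by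
        have h0 : (0 : ℝ) ≤ ((P.image (hi J)).card : ℝ) := Nat.cast_nonneg _
        have : 0 ≤ C₁ * X ^ ε₁ * X ^ (κ / J) := h0.trans h1
        gcongr
    _ = _ := by ring

end ENG34

open ENG34 in
/-- **ENG**. -/
theorem eng_thm (hMOM : S_MOM) (hCNT : S_CNT) (hEN : Pool.FEW.S_EN) : S_ENG := by
  intro κ ε hκ hε
  have hκ0 : 0 < κ := by linarith
  obtain ⟨J, hJdef⟩ : ∃ J : ℕ, J = ⌈8 * κ / ε⌉₊ + 1 := ⟨_, rfl⟩
  have hJ1 : 1 ≤ J := by omega
  have hJ0 : (0 : ℝ) < J := by exact_mod_cast hJ1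
  have hJ : 8 * κ / ε ≤ J := by
    rw [hJdef]
    push_cast
    linarith [Nat.le_ceil (8 * κ / ε)]
  have hκJ : κ / J ≤ ε / 8 := by
    rw [div_le_iff₀ hJ0]
    rw [div_le_iff₀ hε] at hJ
    linarith
  obtain ⟨η, hη⟩ : ∃ η : ℝ, η = ε / (8 * J) := ⟨_, rfl⟩
  have hη0 : 0 < η := by rw [hη]; positivity
  have hηJ : η * J = ε / 8 := by rw [hη]; field_simp
  obtain ⟨δ, hδ⟩ : ∃ δ : ℝ, δ = ε / (16 * J) := ⟨_, rfl⟩
  have hδ0 : 0 < δ := by rw [hδ]; positivity
  have hδJ : δ * J = ε / 16 := by rw [hδ]; field_simp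
  obtain ⟨C₁, hC₁, hcnt⟩ := hCNT κ (ε / 16) hκ0 (by positivity)
  choose Ct hCt hmt using fun t : ℕ => hMOM t J (ε / (8 * κ)) (by positivity)
  obtain ⟨tm, htm⟩ : ∃ tm : ℕ, tm = ⌈1 / η⌉₊ + 2 := ⟨_, rfl⟩
  obtain ⟨Cm, hCm⟩ : ∃ Cm : ℝ, Cm = ∑ t ∈ Finset.range (tm + 1), Ct t := ⟨_, rfl⟩
  have hCtm : ∀ t ≤ tm, Ct t ≤ Cm := by
    intro t ht
    rw [hCm]
    exact Finset.single_le_sum (f := Ct) (fun i _ => by linarith [hCt i])
      (Finset.mem_range.2 (Nat.lt_succ_of_le ht))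
  have hCm1 : 1 ≤ Cm := (hCt 0).trans (hCtm 0 (Nat.zero_le _))
  obtain ⟨X₀, hX₀⟩ : ∃ X₀ : ℝ, X₀ = 2 ^ tm := ⟨_, rfl⟩
  have hX₀1 : 1 < X₀ := by
    rw [hX₀]
    exact one_lt_pow₀ (by norm_num) (by omega)
  obtain ⟨C₂, hC₂⟩ : ∃ C₂ : ℝ, C₂ = C₁ * (1 + 2 / δ) ^ J * 3 ^ J := ⟨_, rfl⟩
  have hC₂0 : 0 ≤ C₂ := by rw [hC₂]; positivity
  refine ⟨(X₀ ^ κ) ^ 2 + C₂ ^ 2 * (2 * Cm), ?_, ?_⟩
  · have h1 : 1 ≤ X₀ ^ κ := Real.one_le_rpow hX₀1.le hκ0.le
    have h2 : 1 ≤ (X₀ ^ κ) ^ 2 := one_le_pow₀ h1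
    have h3 : 0 ≤ C₂ ^ 2 * (2 * Cm) := by positivity
    linarith
  intro X Y q P hX hY hYX hq hqX hP
  have hX0 : 0 < X := by linarith
  have hXε : 1 ≤ X ^ ε := Real.one_le_rpow hX hε.le
  rcases lt_or_ge X X₀ with hsm | hbig
  · -- small `X`
    have h1 : (P.card : ℝ) ≤ X₀ ^ κ := by
      have h2 : P ⊆ Finset.Ioc 0 ⌊X ^ κ⌋₊ := by
        intro n hn
        rw [Finset.mem_Ioc]
        exact ⟨(hP n hn).1, Nat.le_floor (hP n hn).2.1⟩
      have h3 := Finset.card_le_card h2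
      rw [Nat.card_Ioc, Nat.sub_zero] at h3
      have h4 : (P.card : ℝ) ≤ (⌊X ^ κ⌋₊ : ℝ) := by exact_mod_cast h3
      refine h4.trans ((Nat.floor_le (by positivity)).trans ?_)
      exact Real.rpow_le_rpow hX0.le hsm.le hκ0.le
    have h2 : (((P ×ˢ P).filter (fun w => w.1 ≡ w.2 [MOD q])).card : ℝ) ≤ (P.card : ℝ) ^ 2 := by
      have h3 := Finset.card_filter_le (P ×ˢ P) (fun w => w.1 ≡ w.2 [MOD q])
      rw [Finset.card_product, ← pow_two] at h3
      exact_mod_cast h3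
    have h3 : (P.card : ℝ) ^ 2 ≤ (X₀ ^ κ) ^ 2 := pow_le_pow_left₀ (Nat.cast_nonneg _) h1 2
    have h4 : 0 ≤ C₂ ^ 2 * (2 * Cm) := by positivity
    have h5 : 1 ≤ X ^ ε * Y := by nlinarith
    have h6 : 0 ≤ (X₀ ^ κ) ^ 2 + C₂ ^ 2 * (2 * Cm) := by positivity
    calc _ ≤ (X₀ ^ κ) ^ 2 + C₂ ^ 2 * (2 * Cm) := by linarith
      _ ≤ ((X₀ ^ κ) ^ 2 + C₂ ^ 2 * (2 * Cm)) * (X ^ ε * Y) := le_mul_of_one_le_right h6 h5
      _ = _ := by ring
  -- large `X`
  have hX1 : 1 < X := lt_of_lt_of_le hX₀1 hbig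
  have hX3 : X ^ (3 : ℝ) = X ^ 3 := by exact_mod_cast Real.rpow_natCast X 3
  have hqpos : 0 < q := by
    have : (0 : ℝ) < q := lt_of_lt_of_le (by positivity) hq
    exact_mod_cast this
  have hne : NeZero q := ⟨hqpos.ne'⟩
  obtain ⟨z, hz⟩ : ∃ z : ℝ, z = X ^ η := ⟨_, rfl⟩
  have hz1 : 1 < z := by rw [hz]; exact Real.one_lt_rpow hX1 hη0
  obtain ⟨B, hB⟩ : ∃ B : ℝ, B = Cm * X ^ (ε / 8) := ⟨_, rfl⟩
  have hB1 : 1 ≤ B := by
    rw [hB]
    have := Real.one_le_rpow hX (show 0 ≤ ε / 8 by positivity)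
    nlinarith
  have hkey : ∀ k ∈ P.image (key J z), (((P.filter (fun n => key J z n = k)) ×ˢ
      (P.filter (fun n => key J z n = k))).filter (fun w => w.1 % q = w.2 % q)).card ≤
        ⌊2 * B * Y⌋₊ := by
    intro k hk
    refine Nat.le_floor ?_
    obtain ⟨n0, hn0, hk0⟩ := Finset.mem_image.1 hk
    have hk2 : ∀ j : Fin J, (2 : ℝ) ^ (k.2.1 j) ≤ Y := by
      intro j
      have h1 : k.2.1 j = Nat.log 2 (ly ((j : ℕ) + 1) n0) := by rw [← hk0]; rfl
      have h2 : 2 ^ (k.2.1 j) ≤ rad n0 := by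
        rw [h1]
        exact (Nat.pow_log_le_self 2 (ly_pos _ _).ne').trans
          (Nat.le_of_dvd (rad_pos n0) (ly_dvd_rad _ _))
      have h3 : ((2 ^ (k.2.1 j) : ℕ) : ℝ) ≤ (rad n0 : ℝ) := by exact_mod_cast h2
      push_cast at h3
      exact h3.trans (hP n0 hn0).2.2.1
    refine one_key hEN (t0 := k.1) (k := k.2.1) (v := k.2.2) hz1 hB1 (by linarith) ?_ ?_
    · intro n hn
      obtain ⟨hn1, hn2⟩ := Finset.mem_filter.1 hn
      obtain ⟨a1, a2, a3, a4⟩ := hP n hn1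
      refine ⟨a1, a4, by rw [← hn2]; rfl, a3, ?_, ?_⟩
      · intro j
        rw [← hn2]
        rfl
      · intro j hj
        rw [← hn2] at hj ⊢
        have hj' : (2 : ℝ) ^ (Nat.log 2 (ly ((j : ℕ) + 1) n)) < z := hj
        change ly ((j : ℕ) + 1) n =
          if (2 : ℝ) ^ (Nat.log 2 (ly ((j : ℕ) + 1) n)) < z then ly ((j : ℕ) + 1) n else 0
        rw [if_pos hj']
    · intro j U t ht hzk hlt hU
      have htle : t ≤ tm := by
        by_contra hcon
        push Not at hcon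
        have h1 : z ^ (t - 1) < X :=
          lt_of_le_of_lt (pow_le_pow_left₀ (by linarith) hzk _) (lt_of_lt_of_le hlt hYX)
        rw [hz, ← Real.rpow_natCast, ← Real.rpow_mul hX0.le] at h1
        have h2 : η * ((t - 1 : ℕ) : ℝ) < 1 := by
          by_contra h3
          push Not at h3
          have h4 : X ^ (1 : ℝ) ≤ X ^ (η * ((t - 1 : ℕ) : ℝ)) :=
            Real.rpow_le_rpow_of_exponent_le hX h3
          rw [Real.rpow_one] at h4
          linarith
        have h3 : 1 / η ≤ ((t - 1 : ℕ) : ℝ) := by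
          refine (Nat.le_ceil (1 / η)).trans ?_
          exact_mod_cast (by omega : ⌈1 / η⌉₊ ≤ t - 1)
        rw [div_le_iff₀ hη0] at h3
        linarith
      have hqt : (2 * 2 ^ (k.2.1 j)) ^ t ≤ q := by
        have h1 : (((2 * 2 ^ (k.2.1 j)) ^ t : ℕ) : ℝ) ≤ (q : ℝ) := by
          push_cast
          obtain ⟨s, rfl⟩ : ∃ s, t = s + 1 := ⟨t - 1, by omega⟩
          rw [Nat.add_sub_cancel] at hlt
          have e1 : (2 : ℝ) ^ (s + 1) ≤ X := by
            refine le_trans ?_ hbig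
            rw [hX₀]
            exact pow_le_pow_right₀ (by norm_num) htle
          have e2 : ((2 : ℝ) ^ (k.2.1 j)) ^ s ≤ X := hlt.le.trans hYX
          have e3 : (2 : ℝ) ^ (k.2.1 j) ≤ X := (hk2 j).trans hYX
          refine le_trans ?_ hq
          rw [hX3]
          calc (2 * (2 : ℝ) ^ (k.2.1 j)) ^ (s + 1)
              = 2 ^ (s + 1) * ((2 : ℝ) ^ (k.2.1 j)) ^ s * (2 : ℝ) ^ (k.2.1 j) := by
                rw [mul_pow, pow_succ ((2 : ℝ) ^ (k.2.1 j)) s]
                ring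
            _ ≤ X * X * X := by gcongr
            _ = X ^ 3 := by ring
        exact_mod_cast h1
      have hj1 : 1 ≤ (j : ℕ) + 1 := by omega
      have hjJ : (j : ℕ) + 1 ≤ J := by have := j.2; omega
      have h1 := hmt t q ((j : ℕ) + 1) (2 ^ (k.2.1 j)) U hj1 hjJ (Nat.one_le_pow _ _ (by norm_num))
        hU hqt
      refine h1.trans ?_
      push_cast
      have hq1 : (q : ℝ) ^ (ε / (8 * κ)) ≤ X ^ (ε / 8) := by
        calc (q : ℝ) ^ (ε / (8 * κ)) ≤ (X ^ κ) ^ (ε / (8 * κ)) :=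
              Real.rpow_le_rpow (Nat.cast_nonneg _) hqX (by positivity)
          _ = X ^ (ε / 8) := by
              rw [← Real.rpow_mul hX0.le]
              congr 1
              field_simp
      rw [hB]
      have hct := hCtm t htle
      have hct0 : 0 ≤ Ct t := by linarith [hCt t]
      gcongr
  have hsplit := split P (fun n => n % q) (key J z) ⌊2 * B * Y⌋₊ hkey
  have hK := card_keys (J := J) (z := z) (δ := δ) (P := P) hX hYX hJ1 hz1.le
    (fun T hT => hcnt X (X ^ (κ / J)) T hX (Real.one_le_rpow hX (by positivity)) hT) hδ0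
    (fun n hn => ⟨(hP n hn).1, (hP n hn).2.1, (hP n hn).2.2.1⟩)
  have hK2 : ((P.image (key J z)).card : ℝ) ≤ C₂ * X ^ (3 * ε / 8) := by
    refine hK.trans ?_
    have e1 : ((1 + 2 / δ) * X ^ δ) ^ J = (1 + 2 / δ) ^ J * X ^ (ε / 16) := by
      rw [mul_pow, ← Real.rpow_natCast (X ^ δ), ← Real.rpow_mul hX0.le, hδJ]
    have e2 : (3 * z) ^ J = 3 ^ J * X ^ (ε / 8) := by
      rw [hz, mul_pow, ← Real.rpow_natCast (X ^ η), ← Real.rpow_mul hX0.le, hηJ]
    have e3 : X ^ (κ / J) ≤ X ^ (ε / 8) := Real.rpow_le_rpow_of_exponent_le hX hκJ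
    have e4 : X ^ (3 * ε / 8) = X ^ (ε / 16) * X ^ (ε / 8) * X ^ (ε / 16) * X ^ (ε / 8) := by
      rw [← Real.rpow_add hX0, ← Real.rpow_add hX0, ← Real.rpow_add hX0]
      congr 1
      ring
    rw [e1, e2, e4, hC₂]
    calc (C₁ * X ^ (ε / 16) * X ^ (κ / J)) * ((1 + 2 / δ) ^ J * X ^ (ε / 16)) *
          (3 ^ J * X ^ (ε / 8))
        ≤ (C₁ * X ^ (ε / 16) * X ^ (ε / 8)) * ((1 + 2 / δ) ^ J * X ^ (ε / 16)) *
          (3 ^ J * X ^ (ε / 8)) := by gcongr
      _ = _ := by ring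
  have hfin : (((P ×ˢ P).filter (fun w => w.1 ≡ w.2 [MOD q])).card : ℝ) ≤
      ((P.image (key J z)).card : ℝ) ^ 2 * (2 * B * Y) := by
    have h1 : ((P ×ˢ P).filter (fun w => w.1 ≡ w.2 [MOD q])).card ≤
        (P.image (key J z)).card ^ 2 * ⌊2 * B * Y⌋₊ := by
      refine le_trans (le_of_eq ?_) hsplit
      congr 1
    have h2 : (((P ×ˢ P).filter (fun w => w.1 ≡ w.2 [MOD q])).card : ℝ) ≤
        ((P.image (key J z)).card : ℝ) ^ 2 * (⌊2 * B * Y⌋₊ : ℝ) := by exact_mod_cast h1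
    refine h2.trans (mul_le_mul_of_nonneg_left (Nat.floor_le ?_) (by positivity))
    have : 0 ≤ Y := by linarith
    positivity
  have hY0 : 0 ≤ Y := by linarith
  calc (((P ×ˢ P).filter (fun w => w.1 ≡ w.2 [MOD q])).card : ℝ)
      ≤ ((P.image (key J z)).card : ℝ) ^ 2 * (2 * B * Y) := hfin
    _ ≤ (C₂ * X ^ (3 * ε / 8)) ^ 2 * (2 * B * Y) := by gcongr
    _ = C₂ ^ 2 * (2 * Cm) * (X ^ (3 * ε / 8) * X ^ (3 * ε / 8) * X ^ (ε / 8)) * Y := by
        rw [hB]; ring
    _ ≤ C₂ ^ 2 * (2 * Cm) * X ^ ε * Y := by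
        have : X ^ (3 * ε / 8) * X ^ (3 * ε / 8) * X ^ (ε / 8) ≤ X ^ ε := by
          rw [← Real.rpow_add hX0, ← Real.rpow_add hX0]
          exact Real.rpow_le_rpow_of_exponent_le hX (by linarith)
        gcongr
    _ ≤ ((X₀ ^ κ) ^ 2 + C₂ ^ 2 * (2 * Cm)) * X ^ ε * Y := by
        have : 0 ≤ (X₀ ^ κ) ^ 2 := by positivity
        gcongr
        linarith

end Pool.RIC
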